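import Mathlib
import Pool.Agent.H890.Num2

/-!
MP_cfacaa_ag, Q1: pairs. The conjecture for nef classes on Calabi-Yau manifolds implies (is
equivalent to) the conjecture for nef classes on manifolds `X` such that `K_X + (1 / N) D` is
`ℚ`-linearly trivial, `D` being a smooth divisor which is divisible by `N ≥ 3` in the Picard group.
-/

set_option autoImplicit false

namespace Pool.Agent.Results.MP_cfacaa_ag.FermatBundles

open FF Pool.Agent.Y172 Pool.Agent.R887 Pool.Agent.H890

/-- (1) Let `X` be a projective manifold over `ℂ` of dimension `n ≥ 1` with function field `K` (`y`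
is its generic point, in homogeneous coordinates). Let `D` be a smooth divisor on `X` (it may be zero
or disconnected) which is linearly equivalent to `N Λ`, `Λ` being a divisor, `N = r + 2 ≥ 3`, the
divisor of the function `s` being `D - N Λ`, and suppose that `K_X + (1 / N) D` is `ℚ`-linearly
equivalent to zero. Then there is a projective manifold `V` of dimension `n + N - 2`, with generic
point `v` and function field `M`, with the following properties.

* `M` is the function field of the Fermat hypersurface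
  `z_0 ^ N + s z_1 ^ N + z_2 ^ N + … + z_{N-1} ^ N = 0` in `P ^ (N - 1)` over `K`.
* `V` is a Calabi-Yau manifold: `K_V` is `ℚ`-linearly equivalent to zero.
* Every nef `ℚ`-divisor `E` on `X` has a nef pull-back `E'` to `V`, which is numerically semiample if
  and only if `E` is numerically semiample.

(2) Hence Q1 (for Calabi-Yau manifolds of all dimensions `≥ 1`) is equivalent to the following: if
`X, D, Λ, N` are as in (1) and `K_X + (1 / N) D` (which is `ℚ`-linearly equivalent to `K_X + Λ`) is
`ℚ`-linearly equivalent to zero, then every nef `ℚ`-divisor on `X` is numerically semiample. -/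
theorem result :
    (∀ (K : Type) [Field K] [Algebra ℂ K] (n r N : ℕ) (y : Fin (N + 1) → K)
      (D Λ : Place ℂ K → ℤ) (s : K), Algebra.trdeg ℂ K = n → 1 ≤ n → 1 ≤ r →
      NormalModel y → SmoothPair y n D → Divides y n (r + 2) D Λ s →
      LogTrivial y n (fun P => (1 : ℚ) / (r + 2 : ℕ) * D P) →
      ∃ (M : Type) (_ : Field M) (_ : Algebra ℂ M) (_ : Algebra K M) (_ : IsScalarTower ℂ K M)
        (z : Fin (r + 2) → M) (N' : ℕ) (v : Fin (N' + 1) → M), FermatField K s r 1 z ∧
        Algebra.trdeg ℂ M = (n + r : ℕ) ∧ NormalModel v ∧ SmoothVariety v (n + r) ∧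
        LogTrivial v (n + r) 0 ∧
        ∀ E : Place ℂ K → ℚ, QDivisor y E → NefDivisor y n E → ∃ E' : Place ℂ M → ℚ,
          IsPullBack y v E E' ∧ QDivisor v E' ∧ NefDivisor v (n + r) E' ∧
          (NumSemiample v (n + r) E' ↔ NumSemiample y n E)) ∧
    ((∀ (K : Type) [Field K] [Algebra ℂ K] (n N : ℕ) (y : Fin (N + 1) → K),
        Algebra.trdeg ℂ K = n → 1 ≤ n → NormalModel y → SmoothVariety y n →
        LogTrivial y n 0 → NefSemiample y n) ↔
      ∀ (K : Type) [Field K] [Algebra ℂ K] (n r N : ℕ) (y : Fin (N + 1) → K)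
        (D Λ : Place ℂ K → ℤ) (s : K), Algebra.trdeg ℂ K = n → 1 ≤ n → 1 ≤ r →
        NormalModel y → SmoothPair y n D → Divides y n (r + 2) D Λ s →
        LogTrivial y n (fun P => (1 : ℚ) / (r + 2 : ℕ) * D P) → NefSemiample y n) := by
  refine ⟨fun K _ _ n r N y D Λ s hn hn1 hr hy hsm hD ht => ?_, ⟨fun h => ?_, fun h => ?_⟩⟩
  · obtain ⟨M, i1, i2, i3, i4, z, N', v, h1, h2, h3⟩ := fermat_num K hr hn1 hn hy hD hsm
    refine ⟨M, i1, i2, i3, i4, z, N', v, h1, h3.trdeg, h3.normal, h2, h3.trivial ht, ?_⟩
    intro E hE hnef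
    obtain ⟨E', h4, h5, h6, h7, -⟩ := h3.nef E hE hnef
    exact ⟨E', h4, h5, h6, h7⟩
  · intro K _ _ n r N y D Λ s hn hn1 hr hy hsm hD ht
    obtain ⟨M, _, _, _, _, z, N', v, -, h2, h3⟩ := fermat_num K hr hn1 hn hy hD hsm
    exact h3.nefSemiample (h M _ N' v h3.trdeg (by omega) h3.normal h2 (h3.trivial ht))
  · intro K _ _ n N y hn hn1 hy hsm ht
    have h1 := h K n 1 N y 0 0 1 hn hn1 le_rfl hy (smoothPair_zero hy hsm) (divides_zero y n 3)
    have h2 : (fun P : Place ℂ K => (1 : ℚ) / (1 + 2 : ℕ) *
        (((0 : Place ℂ K → ℤ) P : ℤ) : ℚ)) = 0 := by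
      funext P
      simp
    rw [h2] at h1
    exact h1 ht

end Pool.Agent.Results.MP_cfacaa_ag.FermatBundles
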